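import Pool.Agent.Q246.MM.Ex

/-!
# A multiplicative form of Müller's theorem on diagonal matrices

`ψ : ℝ² → ℝ` is separately convex with mixed differences at most `K` (`|∂_x ∂_y ψ| ≤ K` if `ψ` is
smooth), `ϑ` is a Lipschitz map of the plane vanishing off the bounded open set `Ω`, and
`four ϑ Ω = (‖∂₁ϑ₁‖ ‖∂₂ϑ₂‖ ‖∂₂ϑ₁‖ ‖∂₁ϑ₂‖)^{1/2}` with the norms of `L²(Ω)`.

(1) `∫_Ω ψ(F₁₁ + ∂₁ϑ₁, F₂₂ + ∂₂ϑ₂) ≥ |Ω| ψ(F₁₁, F₂₂) - K four ϑ Ω`, and `K` is the best constant.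

(2) For an arbitrary separately convex `ψ`, `L`-Lipschitz in each variable on `[-M, M]²`, the same with
the error `L (2 |Ω| four ϑ Ω)^{1/2}`, if `|F_ii| ≤ M` and `|F_ii + ∂_i ϑ_i| ≤ M` almost everywhere.

(3) `ψ(F₁₁, F₂₂) + p F₁₁² + q F₂₂² + r F₁₂² + s F₂₁²` is quasiconvex if `K⁴ ≤ 256 p q r s`.

(4) All these functions (`K` fixed) are rank-one convex if and only if `K ≤ 2 (√(pq) + √(rs))`; if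
`rs ≤ pq`, they are then quasiconvex.

(5) They need not be polyconvex.

Proof: the row `r` of the gradient diffuses in the direction `x_r` only.  The dissipation is
nonnegative pointwise because `∂₁F₁₂ = ∂₂F₁₁` and `∂₂F₂₁ = ∂₁F₂₂`; at the end of the flow the
diagonal entries vanish and the others have mean zero.
-/

set_option autoImplicit false

namespace Pool.Agent.Results.MP_515557_an.MultiplicativeMueller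

open MeasureTheory Set

/-- rank-one convexity -/
def RankOneConvex (W : Matrix (Fin 2) (Fin 2) ℝ → ℝ) : Prop :=
  ∀ F H : Matrix (Fin 2) (Fin 2) ℝ, H.rank = 1 → ∀ t : ℝ, 0 ≤ t → t ≤ 1 →
    W ((1 - t) • F + t • (F + H)) ≤ (1 - t) * W F + t * W (F + H)

/-- the gradient of a map of the plane, `grad ϑ x i j = ∂_j ϑ_i (x)` -/
noncomputable def grad (ϑ : (Fin 2 → ℝ) → (Fin 2 → ℝ)) (x : Fin 2 → ℝ) :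
    Matrix (Fin 2) (Fin 2) ℝ :=
  LinearMap.toMatrix' ((fderiv ℝ ϑ x : (Fin 2 → ℝ) →L[ℝ] (Fin 2 → ℝ)) :
    (Fin 2 → ℝ) →ₗ[ℝ] (Fin 2 → ℝ))

/-- `Ω` is open and bounded, `ϑ` is Lipschitz and vanishes off `Ω` -/
def Test (Ω : Set (Fin 2 → ℝ)) (ϑ : (Fin 2 → ℝ) → (Fin 2 → ℝ)) : Prop :=
  IsOpen Ω ∧ Bornology.IsBounded Ω ∧ (∃ K, LipschitzWith K ϑ) ∧ ∀ x, x ∉ Ω → ϑ x = 0

/-- quasiconvexity (Morrey) -/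
def Quasiconvex (W : Matrix (Fin 2) (Fin 2) ℝ → ℝ) : Prop :=
  ∀ (F₀ : Matrix (Fin 2) (Fin 2) ℝ) (Ω : Set (Fin 2 → ℝ)) (ϑ : (Fin 2 → ℝ) → (Fin 2 → ℝ)),
    Test Ω ϑ → W F₀ * (volume Ω).toReal ≤ ∫ x in Ω, W (F₀ + grad ϑ x)

/-- polyconvexity: `W(F) = P(F, det F)` with a convex `P` with values in `ℝ ∪ {+∞}` -/
def Polyconvex (W : Matrix (Fin 2) (Fin 2) ℝ → ℝ) : Prop :=
  ∃ P : Matrix (Fin 2) (Fin 2) ℝ × ℝ → EReal, (∀ z, P z ≠ ⊥) ∧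
    (∀ x y, ∀ a b : ℝ, 0 < a → 0 < b → a + b = 1 →
      P (a • x + b • y) ≤ (a : EReal) * P x + (b : EReal) * P y) ∧
    ∀ F, (W F : EReal) = P (F, F.det)

/-- separately convex functions -/
def SepConvex (ψ : ℝ → ℝ → ℝ) : Prop :=
  (∀ y, ConvexOn ℝ univ (fun x => ψ x y)) ∧ ∀ x, ConvexOn ℝ univ (ψ x)

/-- the mixed differences are bounded by `K` -/
def MixedBound (ψ : ℝ → ℝ → ℝ) (K : ℝ) : Prop :=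
  ∀ x x' y y', |ψ x' y' - ψ x' y - ψ x y' + ψ x y| ≤ K * |x' - x| * |y' - y|

/-- `L`-Lipschitz in each variable on the square `[-M, M]²` -/
def LipschitzSquare (ψ : ℝ → ℝ → ℝ) (L M : ℝ) : Prop :=
  (∀ x x' y, |x| ≤ M → |x'| ≤ M → |y| ≤ M → |ψ x y - ψ x' y| ≤ L * |x - x'|) ∧
    ∀ x y y', |x| ≤ M → |y| ≤ M → |y'| ≤ M → |ψ x y - ψ x y'| ≤ L * |y - y'|

/-- the norm of `∂_j ϑ_i` in `L²(Ω)` -/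
noncomputable def norm2 (ϑ : (Fin 2 → ℝ) → (Fin 2 → ℝ)) (Ω : Set (Fin 2 → ℝ)) (i j : Fin 2) : ℝ :=
  Real.sqrt (∫ x in Ω, grad ϑ x i j ^ 2)

/-- the geometric mean of `‖∂₁ϑ₁‖ ‖∂₂ϑ₂‖` and `‖∂₂ϑ₁‖ ‖∂₁ϑ₂‖` -/
noncomputable def four (ϑ : (Fin 2 → ℝ) → (Fin 2 → ℝ)) (Ω : Set (Fin 2 → ℝ)) : ℝ :=
  Real.sqrt (norm2 ϑ Ω 0 0 * norm2 ϑ Ω 1 1 * norm2 ϑ Ω 0 1 * norm2 ϑ Ω 1 0)

/-- `ψ(F₁₁, F₂₂) + p F₁₁² + q F₂₂² + r F₁₂² + s F₂₁²` -/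
noncomputable def fn (ψ : ℝ → ℝ → ℝ) (p q r s : ℝ) (F : Matrix (Fin 2) (Fin 2) ℝ) : ℝ :=
  ψ (F 0 0) (F 1 1) + (p * F 0 0 ^ 2 + q * F 1 1 ^ 2) + (r * F 0 1 ^ 2 + s * F 1 0 ^ 2)

theorem qc_iff {W : Matrix (Fin 2) (Fin 2) ℝ → ℝ} (h : Pool.Agent.Q82.MD.Quasiconvex W) :
    Quasiconvex W := fun F₀ Ω ϑ ht => h F₀ Ω ht.1 ht.2.1 ϑ ht.2.2.1 ht.2.2.2

open Pool.Agent.Q246.MM in
theorem four_eq (ϑ : (Fin 2 → ℝ) → (Fin 2 → ℝ)) (Ω : Set (Fin 2 → ℝ)) :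
    four ϑ Ω = (Dr ϑ Ω 0 0 * Dr ϑ Ω 1 1 * Dr ϑ Ω 0 1 * Dr ϑ Ω 1 0) ^ (1 / 4 : ℝ) := by
  have d00 := Dr_nonneg ϑ Ω 0 0
  have d11 := Dr_nonneg ϑ Ω 1 1
  have d01 := Dr_nonneg ϑ Ω 0 1
  have d10 := Dr_nonneg ϑ Ω 1 0
  have e : norm2 ϑ Ω 0 0 * norm2 ϑ Ω 1 1 * norm2 ϑ Ω 0 1 * norm2 ϑ Ω 1 0
      = Real.sqrt (Dr ϑ Ω 0 0 * Dr ϑ Ω 1 1 * Dr ϑ Ω 0 1 * Dr ϑ Ω 1 0) := by
    rw [Real.sqrt_mul (by positivity), Real.sqrt_mul (by positivity), Real.sqrt_mul d00]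
    rfl
  rw [four, e, Real.sqrt_eq_rpow, Real.sqrt_eq_rpow, ← Real.rpow_mul (by positivity)]
  norm_num

open Pool.Agent.Q246.MM in
theorem result :
    (∀ (ψ : ℝ → ℝ → ℝ) (K : ℝ), SepConvex ψ → MixedBound ψ K →
      ∀ (F₀ : Matrix (Fin 2) (Fin 2) ℝ) (Ω : Set (Fin 2 → ℝ)) (ϑ : (Fin 2 → ℝ) → (Fin 2 → ℝ)),
        Test Ω ϑ → ψ (F₀ 0 0) (F₀ 1 1) * (volume Ω).toReal - K * four ϑ Ω ≤
          ∫ x in Ω, ψ (F₀ 0 0 + grad ϑ x 0 0) (F₀ 1 1 + grad ϑ x 1 1)) ∧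
    (∀ K C : ℝ, 0 < K → C < K → ∃ (Ω : Set (Fin 2 → ℝ)) (ϑ : (Fin 2 → ℝ) → (Fin 2 → ℝ)),
      Test Ω ϑ ∧ ∫ x in Ω, K * grad ϑ x 0 0 * grad ϑ x 1 1 < -(C * four ϑ Ω)) ∧
    (∀ (ψ : ℝ → ℝ → ℝ) (L M : ℝ), SepConvex ψ → 0 ≤ L → 0 ≤ M → LipschitzSquare ψ L M →
      ∀ (F₀ : Matrix (Fin 2) (Fin 2) ℝ) (Ω : Set (Fin 2 → ℝ)) (ϑ : (Fin 2 → ℝ) → (Fin 2 → ℝ)),
        Test Ω ϑ → (∀ i, |F₀ i i| ≤ M) →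
        (∀ᵐ x ∂(volume.restrict Ω), ∀ i, |F₀ i i + grad ϑ x i i| ≤ M) →
        ψ (F₀ 0 0) (F₀ 1 1) * (volume Ω).toReal
            - L * Real.sqrt (2 * (volume Ω).toReal * four ϑ Ω) ≤
          ∫ x in Ω, ψ (F₀ 0 0 + grad ϑ x 0 0) (F₀ 1 1 + grad ϑ x 1 1)) ∧
    (∀ (ψ : ℝ → ℝ → ℝ) (K p q r s : ℝ), SepConvex ψ → MixedBound ψ K →
      0 ≤ p → 0 ≤ q → 0 ≤ r → 0 ≤ s → K ^ 4 ≤ 256 * (p * q * r * s) →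
      Quasiconvex (fn ψ p q r s)) ∧
    (∀ K p q r s : ℝ, 0 ≤ K → 0 ≤ p → 0 ≤ q → 0 ≤ r → 0 ≤ s →
      ((∀ ψ : ℝ → ℝ → ℝ, SepConvex ψ → MixedBound ψ K → RankOneConvex (fn ψ p q r s)) ↔
        K ≤ 2 * (Real.sqrt (p * q) + Real.sqrt (r * s))) ∧
      (r * s ≤ p * q → K ≤ 2 * (Real.sqrt (p * q) + Real.sqrt (r * s)) →
        ∀ ψ : ℝ → ℝ → ℝ, SepConvex ψ → MixedBound ψ K → Quasiconvex (fn ψ p q r s))) ∧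
    ∃ ψ : ℝ → ℝ → ℝ, SepConvex ψ ∧ MixedBound ψ 2 ∧
      ¬ Polyconvex (fn ψ (1 / 2) (1 / 2) (1 / 2) (1 / 2)) := by
  refine ⟨?_, ?_, ?_, ?_, ?_, ?_⟩
  · rintro ψ K h1 h2 F₀ Ω ϑ ⟨hΩ, hb, ⟨C, hC⟩, h0⟩
    have h := mult (ψ := ψ) (K := K) ⟨h1.1, h1.2, h2⟩ F₀ hΩ hb hC h0
    rw [← four_eq] at h
    exact sub_le_iff_le_add.2 h
  · intro K C _ hC
    obtain ⟨Ω, ϑ, h1, h2, h3, h4, h5⟩ := sharp hC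
    rw [← four_eq] at h5
    refine ⟨Ω, ϑ, ⟨h1, h2, h3, h4⟩, ?_⟩
    have h6 : (∫ x in Ω, K * grad ϑ x 0 0 * grad ϑ x 1 1) + C * four ϑ Ω < 0 := h5
    linarith
  · rintro ψ L M h1 hL hM h2 F₀ Ω ϑ ⟨hΩ, hb, ⟨C, hC⟩, h0⟩ hF hA
    have h := lip_local hM hL h1.1 h1.2 h2.1 h2.2 F₀ hΩ hb hC h0 hF hA
    rw [← four_eq] at h
    exact sub_le_iff_le_add.2 h
  · intro ψ K p q r s h1 h2 hp hq hr hs hK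
    exact qc_iff (qc_gen (ψ := ψ) (K := K) ⟨h1.1, h1.2, h2⟩ hp hq hr hs hK)
  · intro K p q r s hK hp hq hr hs
    refine ⟨⟨fun h => ?_, fun h ψ h1 h2 => ?_⟩, fun hle h ψ h1 h2 => ?_⟩
    · by_contra hne
      push Not at hne
      have hc := cl_mul hK
      exact not_roc hp hq hr hs hne (h _ ⟨hc.1, hc.2.1⟩ hc.2.2)
    · exact roc_two (ψ := ψ) (K := K) ⟨h1.1, h1.2, h2⟩ hp hq hr hs h
    · exact qc_iff (qc_two (ψ := ψ) (K := K) ⟨h1.1, h1.2, h2⟩ hp hq hr hs hle h)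
  · exact ⟨ps, ⟨cl_ps.1, cl_ps.2.1⟩, cl_ps.2.2, not_poly⟩

end Pool.Agent.Results.MP_515557_an.MultiplicativeMueller
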