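import Pool.Agent.Q62.PS.All

/-!
# Morrey's problem for planar energies with a volumetric-isochoric split

Let `W` be a function of a real `2 × 2` matrix whose values at the matrices with positive
determinant are `W(A) = h(|A|² / det A) + f(det A)`, with arbitrary functions `h` (isochoric part)
and `f` (volumetric part) and the operator norm `|A|`.  So `|A|² / det A` is the ratio of the
singular values, and every isotropic function of `A / √(det A)` is a function of this ratio.

If `W` is rank-one convex on the set of matrices with positive determinant, then the Morrey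
inequality holds at every matrix with positive determinant and for every Lipschitz test map which
keeps the determinant positive almost everywhere and for which the positive part of the energy is
integrable.  Moreover `W - e W₀` is polyconvex for some `e ≥ 0`, where
`W₀(A) = |A|² / det A + 2 log (det A / |A|)` (the ratio of the singular values plus twice the
logarithm of the smallest singular value), and `e = 0` if the volumetric part is convex.

Proof: if `W` is rank-one convex, then there is a constant `c` such that `f(d) + c log d` is convex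
and `h(|A|² / det A) - c log det A` is rank-one convex.  If `c ≤ 0`, then the last function is
`-c W₀` plus a nondecreasing convex function of the ratio of the singular values.  If `c > 0`, then
it has at every matrix a support function `p |u_z| + q |u_zbar| + r det + const`, `p, q ≥ 0`; this
is shown by integrating the inequalities along the rank-one lines through the matrix, and by the
invariance of the function under scaling.
-/

set_option autoImplicit false

namespace Pool.Agent.Results.MP_515557_an.PlanarSplit

open MeasureTheory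

/-- the matrix `F₀ + Dϑ(x)` -/
noncomputable def Grad (F₀ : Matrix (Fin 2) (Fin 2) ℝ) (ϑ : (Fin 2 → ℝ) → (Fin 2 → ℝ))
    (x : Fin 2 → ℝ) : Matrix (Fin 2) (Fin 2) ℝ :=
  F₀ + LinearMap.toMatrix'
    ((fderiv ℝ ϑ x : (Fin 2 → ℝ) →L[ℝ] (Fin 2 → ℝ)) : (Fin 2 → ℝ) →ₗ[ℝ] (Fin 2 → ℝ))

/-- convexity along the segments in rank-one directions between matrices with positive
determinant -/
def RankOneConvexPos (W : Matrix (Fin 2) (Fin 2) ℝ → ℝ) : Prop :=
  ∀ F H : Matrix (Fin 2) (Fin 2) ℝ, H.rank = 1 → 0 < F.det → 0 < (F + H).det →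
    ∀ t : ℝ, 0 ≤ t → t ≤ 1 → W ((1 - t) • F + t • (F + H)) ≤ (1 - t) * W F + t * W (F + H)

/-- the Morrey inequality at matrices `F₀` with positive determinant, for Lipschitz maps `ϑ`
vanishing off a bounded open set `Ω` such that `det (F₀ + Dϑ) > 0` almost everywhere on `Ω` and the
positive part of `W(F₀ + Dϑ)` is integrable on `Ω` -/
def QuasiconvexPos (W : Matrix (Fin 2) (Fin 2) ℝ → ℝ) : Prop :=
  ∀ F₀ : Matrix (Fin 2) (Fin 2) ℝ, 0 < F₀.det → ∀ Ω : Set (Fin 2 → ℝ),
    IsOpen Ω → Bornology.IsBounded Ω →
    ∀ ϑ : (Fin 2 → ℝ) → (Fin 2 → ℝ), (∃ K, LipschitzWith K ϑ) → (∀ x, x ∉ Ω → ϑ x = 0) →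
      (∀ᵐ x ∂(volume.restrict Ω), 0 < (Grad F₀ ϑ x).det) →
      ∫⁻ x in Ω, ENNReal.ofReal (W (Grad F₀ ϑ x)) ≠ ⊤ →
      IntegrableOn (fun x => W (Grad F₀ ϑ x)) Ω ∧
        W F₀ * (volume Ω).toReal ≤ ∫ x in Ω, W (Grad F₀ ϑ x)

/-- polyconvexity on the matrices with positive determinant: at every such matrix `F₀` there is a
support function which is an affine function of `F` and `det F` -/
def PolyconvexPos (V : Matrix (Fin 2) (Fin 2) ℝ → ℝ) : Prop :=
  ∀ F₀ : Matrix (Fin 2) (Fin 2) ℝ, 0 < F₀.det →
    ∃ (L : Matrix (Fin 2) (Fin 2) ℝ →ₗ[ℝ] ℝ) (β : ℝ), ∀ F : Matrix (Fin 2) (Fin 2) ℝ, 0 < F.det →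
      V F₀ + L (F - F₀) + β * (F.det - F₀.det) ≤ V F

open scoped Matrix.Norms.L2Operator in
/-- `W₀(A) = |A|² / det A + 2 log (det A / |A|)`, the ratio of the singular values plus twice the
logarithm of the smallest singular value; `|A|` is the operator norm on the Euclidean plane -/
noncomputable def W₀ (A : Matrix (Fin 2) (Fin 2) ℝ) : ℝ :=
  ‖A‖ ^ 2 / A.det + 2 * Real.log (A.det / ‖A‖)

open scoped Matrix.Norms.L2Operator in
/-- Let `W(A) = h(|A|² / det A) + f(det A)` for all real `2 × 2` matrices `A` with `det A > 0`,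
where `|A|` is the operator norm of `A` on the Euclidean plane and `h, f` are arbitrary.  If `W` is
rank-one convex on the matrices with positive determinant, then `W` is quasiconvex there, and it is
the sum of `e W₀`, `e ≥ 0`, and of a polyconvex function, with `e = 0` if `f` is convex on the
positive half-line. -/
theorem result (h f : ℝ → ℝ) (W : Matrix (Fin 2) (Fin 2) ℝ → ℝ)
    (hW : ∀ A : Matrix (Fin 2) (Fin 2) ℝ, 0 < A.det → W A = h (‖A‖ ^ 2 / A.det) + f A.det)
    (hR : RankOneConvexPos W) :
    QuasiconvexPos W ∧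
    ∃ e : ℝ, 0 ≤ e ∧ (ConvexOn ℝ (Set.Ioi 0) f → e = 0) ∧
      PolyconvexPos (fun A => W A - e * W₀ A) :=
  ⟨fun F₀ h0 _ hΩ hb _ hϑ hz hpos hfin =>
    Pool.Agent.Q62.PS.quasi_main h f W hW hR F₀ h0 ⟨hΩ, hb, hϑ, hz⟩ hpos hfin,
  Pool.Agent.Q62.PS.poly_main h f W hW hR⟩

end Pool.Agent.Results.MP_515557_an.PlanarSplit
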