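import Pool.Agent.Q63.Mor.Fin

/-!
# A differential criterion for quasiconvexity of smooth isotropic functions of `2 × 2` matrices

Let `W` be a rank-one convex function of a real `2 × 2` matrix with `W (R A Q) = W A` for all
rotations `R, Q`, and let `g(x, y) = W(diag(x, y))` be of class `C³`.  Nothing is assumed on the
sign of third or fourth derivatives of `g`.  The criterion is that the tangent lines of the
functions `g_xx(x, ·)` are nonnegative on `[-x, x]`:

  `g_xx(x, y) + (z - y) g_xxy(x, y) ≥ 0`  for `|y| ≤ x`, `|z| ≤ x`,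

in other words, the region under the graph of the nonnegative function `g_xx(x, ·)` over `[-x, x]`
is star-shaped with respect to its two lower corners `(-x, 0)` and `(x, 0)`.  Under the criterion
`W` is quasiconvex.

The quasiconvexity inequality at one matrix `F₀` with singular values `s₀ ≥ |v₀|`
(`v₀ = det F₀ / ‖F₀‖`) needs the criterion only on the curve `x ↦ (x, y(x))`, where `y(x)` is the
point of `[-x, x]` next to `v₀`: a half-line and a piece of the diagonal.  In particular the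
quasiconvexity inequality holds at all singular matrices if `g_xx(x, 0) ≥ x |g_xxy(x, 0)|` for all
`x > 0`.

Proof: for `b = v₀ ≥ 0` the function
`T(s, v) = g(s, b) + (v - b) g_y(s, b)` for `s ≥ b`, continued by the function which is affine in
`s` and in `v` and has the same value and derivatives at `s = b`, is a function of the form
`α(‖A‖) + β(‖A‖) det A`; the criterion says that it is rank-one convex, hence quasiconvex (every
rank-one convex function of this form is), and it lies below `W` and touches it at `F₀`.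
-/

set_option autoImplicit false

namespace Pool.Agent.Results.MP_515557_an.TangentCriterion

/-- the second derivative `∂² / ∂x²` of `W(diag(x, y))` -/
noncomputable def gxx (W : Matrix (Fin 2) (Fin 2) ℝ → ℝ) (x y : ℝ) : ℝ :=
  deriv (fun s => deriv (fun t => W !![t, 0; 0, y]) s) x

/-- the third derivative `∂³ / ∂x²∂y` of `W(diag(x, y))` -/
noncomputable def gxxy (W : Matrix (Fin 2) (Fin 2) ℝ → ℝ) (x y : ℝ) : ℝ :=
  deriv (fun s => deriv (fun t => deriv (fun u => W !![t, 0; 0, u]) y) s) x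

/-- the tangent line of `g_xx(x, ·)` at `y` is nonnegative on `[-x, x]` -/
def TangentNonneg (W : Matrix (Fin 2) (Fin 2) ℝ → ℝ) (x y : ℝ) : Prop :=
  ∀ z : ℝ, |z| ≤ x → 0 ≤ gxx W x y + (z - y) * gxxy W x y

/-- the quasiconvexity inequality at the matrix `F₀` -/
def QuasiconvexAt (W : Matrix (Fin 2) (Fin 2) ℝ → ℝ) (F₀ : Matrix (Fin 2) (Fin 2) ℝ) : Prop :=
  ∀ Ω : Set (Fin 2 → ℝ), IsOpen Ω → Bornology.IsBounded Ω →
    ∀ ϑ : (Fin 2 → ℝ) → (Fin 2 → ℝ), (∃ K, LipschitzWith K ϑ) → (∀ x, x ∉ Ω → ϑ x = 0) →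
      W F₀ * (MeasureTheory.volume Ω).toReal ≤
        ∫ x in Ω, W (F₀ + LinearMap.toMatrix'
          ((fderiv ℝ ϑ x : (Fin 2 → ℝ) →L[ℝ] (Fin 2 → ℝ)) : (Fin 2 → ℝ) →ₗ[ℝ] (Fin 2 → ℝ)))

open scoped Matrix.Norms.L2Operator in
/-- Let `W` be rank-one convex on the real `2 × 2` matrices, `W (R A Q) = W A` for all rotations
`R, Q`, and let `g(x, y) = W(diag(x, y))` be of class `C³`.

(1) If the tangent line of `g_xx(x, ·)` at the point of `[-x, x]` next to `det F₀ / ‖F₀‖` is
nonnegative on `[-x, x]` for every `x > 0`, then the quasiconvexity inequality holds at `F₀`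
(`‖·‖` is the operator norm on the Euclidean plane and `0 / 0 = 0`).

(2) If the tangent lines of `g_xx(x, ·)` at all points of `[-x, x]` are nonnegative on `[-x, x]`
for every `x > 0`, then `W` is quasiconvex.

(3) If `g_xx(x, 0) + z g_xxy(x, 0) ≥ 0` for `|z| ≤ x`, `x > 0`, then the quasiconvexity inequality
holds at every singular matrix. -/
theorem result (W : Matrix (Fin 2) (Fin 2) ℝ → ℝ)
    (hinv : ∀ R ∈ Matrix.specialOrthogonalGroup (Fin 2) ℝ,
      ∀ Q ∈ Matrix.specialOrthogonalGroup (Fin 2) ℝ, ∀ A, W (R * A * Q) = W A)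
    (hsm : ContDiff ℝ 3 (fun z : ℝ × ℝ => W !![z.1, 0; 0, z.2]))
    (hroc : ∀ F H : Matrix (Fin 2) (Fin 2) ℝ, H.rank = 1 → ∀ t : ℝ, 0 ≤ t → t ≤ 1 →
      W ((1 - t) • F + t • (F + H)) ≤ (1 - t) * W F + t * W (F + H)) :
    (∀ F₀ : Matrix (Fin 2) (Fin 2) ℝ,
      (∀ x : ℝ, 0 < x → TangentNonneg W x (max (-x) (min x (F₀.det / ‖F₀‖)))) →
        QuasiconvexAt W F₀) ∧
    ((∀ x y : ℝ, 0 < x → |y| ≤ x → TangentNonneg W x y) →
      ∀ F₀ : Matrix (Fin 2) (Fin 2) ℝ, QuasiconvexAt W F₀) ∧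
    ((∀ x : ℝ, 0 < x → TangentNonneg W x 0) →
      ∀ F₀ : Matrix (Fin 2) (Fin 2) ℝ, F₀.det = 0 → QuasiconvexAt W F₀) := by
  have h1 : ∀ F₀ : Matrix (Fin 2) (Fin 2) ℝ,
      (∀ x : ℝ, 0 < x → TangentNonneg W x (max (-x) (min x (F₀.det / ‖F₀‖)))) →
        QuasiconvexAt W F₀ := by
    intro F₀ H Ω hΩ hb ϑ hϑ h0
    exact Pool.Agent.Q63.Mor.main W hinv hsm hroc F₀ (fun s v hs hv => H s hs v hv) Ω hΩ hb ϑ hϑ h0
  refine ⟨h1, fun H F₀ => h1 F₀ fun x hx => H x _ hx ?_, fun H F₀ hF => h1 F₀ fun x hx => ?_⟩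
  · rw [abs_le]
    exact ⟨le_max_left _ _, max_le (by linarith) (min_le_left _ _)⟩
  · rw [hF, zero_div, min_eq_right hx.le, max_eq_right (by linarith)]
    exact H x hx

end Pool.Agent.Results.MP_515557_an.TangentCriterion
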