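import Pool.Agent.Q82.MD.Fin

/-!
# Functions of two linear functionals plus a quadratic form (Morrey's question for 2 × 2 matrices)

Rank-one convexity implies quasiconvexity for the following functions `W` of real `2 × 2` matrices.

(1) `W(F) = ψ(F n) + Q(F)`, (2) `W(F) = ψ(Fᵀ m) + Q(F)`: `ψ : ℝ² → ℝ` an arbitrary function, `Q` an
arbitrary quadratic form, `n`, `m` arbitrary vectors.

(3) `W(F) = (K/2) |F|² - φ(L F)`: `K ≥ 0`, `L : ℝ^{2×2} → ℝ²` an arbitrary linear map, `φ` an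
arbitrary finite convex function.  In particular (3') `W(F) = f(F₁₁, F₂₂) + (K/2) (F₁₂² + F₂₁²)`,
`f` separately convex with `(K/2) |y|² - f(y)` convex.

(4) `W(F) = ψ(L F) + L F · M F + κ det F`: `ψ` arbitrary, `L, M : ℝ^{2×2} → ℝ²` linear, `L F ≠ 0` for
the matrices of rank one.

(0) A criterion: a `C²` function with `D²W(F)[H,H] + c(F n) det H ≥ 0` for all `F`, `H`, with a
continuous function `c` of the vector `F n`, is quasiconvex.

Proof: the heat flow of the gradient (in (3) of the pair gradient, dual variable) decreases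
`∫ W`, because the dissipation plus ONE null Lagrangian with a variable coefficient,
`c(g) det Dg` with a planar map `g` (`g = F n`, `Fᵀ m`, `L F`, or the dual variable of the
Legendre transform), is nonnegative pointwise; `c` comes from the S-lemma and a partition of unity.
-/

set_option autoImplicit false

namespace Pool.Agent.Results.MP_515557_an.TwoFunctionals

open MeasureTheory Set

/-- rank-one convexity -/
def RankOneConvex (W : Matrix (Fin 2) (Fin 2) ℝ → ℝ) : Prop :=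
  ∀ F H : Matrix (Fin 2) (Fin 2) ℝ, H.rank = 1 → ∀ t : ℝ, 0 ≤ t → t ≤ 1 →
    W ((1 - t) • F + t • (F + H)) ≤ (1 - t) * W F + t * W (F + H)

/-- quasiconvexity (Morrey) -/
def Quasiconvex (W : Matrix (Fin 2) (Fin 2) ℝ → ℝ) : Prop :=
  ∀ F₀ : Matrix (Fin 2) (Fin 2) ℝ, ∀ Ω : Set (Fin 2 → ℝ),
    IsOpen Ω → Bornology.IsBounded Ω →
    ∀ ϑ : (Fin 2 → ℝ) → (Fin 2 → ℝ), (∃ K, LipschitzWith K ϑ) →
      (∀ x, x ∉ Ω → ϑ x = 0) →
      W F₀ * (MeasureTheory.volume Ω).toReal ≤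
        ∫ x in Ω, W (F₀ + LinearMap.toMatrix'
          ((fderiv ℝ ϑ x : (Fin 2 → ℝ) →L[ℝ] (Fin 2 → ℝ)) :
            (Fin 2 → ℝ) →ₗ[ℝ] (Fin 2 → ℝ)))

/-- real `2 × 2` matrices -/
abbrev Mat : Type := Matrix (Fin 2) (Fin 2) ℝ

/-- vectors of the plane -/
abbrev Vec : Type := Fin 2 → ℝ

/-- (1) functions `ψ(F n) + Q(F)` -/
def ColumnClass : Prop := ∀ (ψ : Vec → ℝ) (n : Vec) (Q : QuadraticForm ℝ Mat),
  RankOneConvex (fun F => ψ (F.mulVec n) + Q F) → Quasiconvex (fun F => ψ (F.mulVec n) + Q F)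

/-- (2) functions `ψ(Fᵀ m) + Q(F)` -/
def RowClass : Prop := ∀ (ψ : Vec → ℝ) (m : Vec) (Q : QuadraticForm ℝ Mat),
  RankOneConvex (fun F => ψ (F.transpose.mulVec m) + Q F) →
    Quasiconvex (fun F => ψ (F.transpose.mulVec m) + Q F)

/-- `(K/2) |F|² - φ(L F)` -/
noncomputable def concaveFun (K : ℝ) (φ : Vec → ℝ) (L : Mat →ₗ[ℝ] Vec) (F : Mat) : ℝ :=
  K / 2 * (∑ i, ∑ j, F i j ^ 2) - φ (L F)

/-- (3) functions `(K/2) |F|² - φ(L F)`, `φ` convex, `K ≥ 0` -/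
def ConcaveClass : Prop := ∀ (φ : Vec → ℝ) (L : Mat →ₗ[ℝ] Vec) (K : ℝ), 0 ≤ K →
  ConvexOn ℝ univ φ → RankOneConvex (concaveFun K φ L) → Quasiconvex (concaveFun K φ L)

/-- (3') functions `f(F₁₁, F₂₂) + (K/2) (F₁₂² + F₂₁²)`, `f` separately convex, `(K/2)|y|² - f(y)` convex -/
def SeparateClass : Prop := ∀ (f : ℝ → ℝ → ℝ) (K : ℝ), 0 ≤ K →
  (∀ y, ConvexOn ℝ univ (fun x => f x y)) → (∀ x, ConvexOn ℝ univ (f x)) →
  ConvexOn ℝ univ (fun v : Vec => K / 2 * (v 0 ^ 2 + v 1 ^ 2) - f (v 0) (v 1)) →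
  Quasiconvex (fun F => f (F 0 0) (F 1 1) + K / 2 * (F 0 1 ^ 2 + F 1 0 ^ 2))

/-- `ψ(L F) + L F · M F + κ det F` -/
noncomputable def coupledFun (ψ : Vec → ℝ) (L M : Mat →ₗ[ℝ] Vec) (κ : ℝ) (F : Mat) : ℝ :=
  ψ (L F) + (∑ i, L F i * M F i) + κ * F.det

/-- (4) functions `ψ(L F) + L F · M F + κ det F`, no matrix of rank one in the kernel of `L` -/
def CoupledClass : Prop := ∀ (ψ : Vec → ℝ) (L M : Mat →ₗ[ℝ] Vec) (κ : ℝ),
  (∀ F : Mat, F.rank = 1 → L F ≠ 0) →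
  RankOneConvex (coupledFun ψ L M κ) → Quasiconvex (coupledFun ψ L M κ)

/-- the second derivative `D²W(F)[H,H]` -/
noncomputable def secondDeriv (W : Mat → ℝ) (F H : Fin 2 → Fin 2 → ℝ) : ℝ :=
  fderiv ℝ (fderiv ℝ (fun F : Fin 2 → Fin 2 → ℝ => W (Matrix.of F))) F H H

/-- (0) the criterion -/
def Criterion : Prop := ∀ (W : Mat → ℝ) (n : Vec) (c : Vec → ℝ),
  ContDiff ℝ 2 (fun F : Fin 2 → Fin 2 → ℝ => W (Matrix.of F)) → Continuous c →
  (∀ F H : Fin 2 → Fin 2 → ℝ,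
    0 ≤ secondDeriv W F H + c ((Matrix.of F).mulVec n) * (Matrix.of H).det) → Quasiconvex W

theorem result :
    ColumnClass ∧ RowClass ∧ ConcaveClass ∧ SeparateClass ∧ CoupledClass ∧ Criterion := by
  refine ⟨fun ψ n Q h => Pool.Agent.Q82.MD.gen1 Pool.Agent.Q82.MD.hC Q144.MD.lc ψ n Q h,
    fun ψ m Q h => ?_, fun φ L K hK hφ h => Pool.Agent.Q82.MD.gen3 Pool.Agent.Q82.MD.hI φ L K hK hφ h,
    fun f K hK h1 h2 h3 => ?_,
    fun ψ L M κ hL h => Pool.Agent.Q82.MD.gen4 Pool.Agent.Q82.MD.hKG ψ L M κ hL h,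
    fun W n c hW hc h => Pool.Agent.Q82.MD.gen0 Pool.Agent.Q82.MD.hCR0 Q144.MD.lc W n c hW hc h⟩
  · have e : (fun F : Matrix (Fin 2) (Fin 2) ℝ => ψ (F.transpose.mulVec m) + Q F)
        = fun F => ψ (Matrix.vecMul m F) + Q F := by
      funext F
      rw [Matrix.mulVec_transpose]
    rw [e] at h ⊢
    exact Pool.Agent.Q82.MD.gen2 Pool.Agent.Q82.MD.hR Q144.MD.tc ψ m Q h
  · have hr := Pool.Agent.Q82.MD.hSEP K f hK h1 h2 h3
    let L : Matrix (Fin 2) (Fin 2) ℝ →ₗ[ℝ] (Fin 2 → ℝ) :=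
      { toFun := fun F i => F i i
        map_add' := fun F G => rfl
        map_smul' := fun a F => rfl }
    have e : (fun F : Matrix (Fin 2) (Fin 2) ℝ =>
          f (F 0 0) (F 1 1) + K / 2 * (F 0 1 ^ 2 + F 1 0 ^ 2))
        = fun F => K / 2 * (∑ i, ∑ j, F i j ^ 2)
          - (fun v : Fin 2 → ℝ => K / 2 * (v 0 ^ 2 + v 1 ^ 2) - f (v 0) (v 1)) (L F) := by
      funext F
      simp only [Fin.sum_univ_two, L, LinearMap.coe_mk, AddHom.coe_mk]
      ring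
    have hr2 : Pool.Agent.Q82.MD.RankOneConvex (fun F : Matrix (Fin 2) (Fin 2) ℝ =>
        K / 2 * (∑ i, ∑ j, F i j ^ 2)
          - (fun v : Fin 2 → ℝ => K / 2 * (v 0 ^ 2 + v 1 ^ 2) - f (v 0) (v 1)) (L F)) := by
      rw [← e]; exact hr
    rw [e]
    exact Pool.Agent.Q82.MD.gen3 Pool.Agent.Q82.MD.hI _ L K hK h3 hr2

end Pool.Agent.Results.MP_515557_an.TwoFunctionals
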